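import Pool.Agent.Y166.CS.Stm

/-!
# CS-IF: the affine change of coordinates
-/

set_option autoImplicit false

namespace Pool.Agent.Y810.CS

open Polynomial

theorem done : Pool.Agent.Y166.CS.S_IF := by
  intro f k a b c ha hc
  let F : MvPolynomial (Fin 3) ℂ →ₐ[ℂ] MvPolynomial (Fin 3) ℂ :=
    MvPolynomial.aeval ![MvPolynomial.C a * MvPolynomial.X 0 + MvPolynomial.C b,
      MvPolynomial.X 1, MvPolynomial.C c * MvPolynomial.X 2]
  let G : MvPolynomial (Fin 3) ℂ →ₐ[ℂ] MvPolynomial (Fin 3) ℂ :=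
    MvPolynomial.aeval ![MvPolynomial.C a⁻¹ * (MvPolynomial.X 0 - MvPolynomial.C b),
      MvPolynomial.X 1, MvPolynomial.C c⁻¹ * MvPolynomial.X 2]
  have F0 : F (MvPolynomial.X 0) =
      MvPolynomial.C a * MvPolynomial.X 0 + MvPolynomial.C b := by simp [F]
  have F1 : F (MvPolynomial.X 1) = MvPolynomial.X 1 := by simp [F]
  have F2 : F (MvPolynomial.X 2) = MvPolynomial.C c * MvPolynomial.X 2 := by simp [F]
  have G0 : G (MvPolynomial.X 0) =
      MvPolynomial.C a⁻¹ * (MvPolynomial.X 0 - MvPolynomial.C b) := by simp [G]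
  have G1 : G (MvPolynomial.X 1) = MvPolynomial.X 1 := by simp [G]
  have G2 : G (MvPolynomial.X 2) = MvPolynomial.C c⁻¹ * MvPolynomial.X 2 := by simp [G]
  have FC : ∀ r : ℂ, F (MvPolynomial.C r) = MvPolynomial.C r := fun r => by simp [F]
  have GC : ∀ r : ℂ, G (MvPolynomial.C r) = MvPolynomial.C r := fun r => by simp [G]
  have ea : (MvPolynomial.C a : MvPolynomial (Fin 3) ℂ) * MvPolynomial.C a⁻¹ = 1 := by
    rw [← MvPolynomial.C_mul, mul_inv_cancel₀ ha, MvPolynomial.C_1]
  have ec : (MvPolynomial.C c : MvPolynomial (Fin 3) ℂ) * MvPolynomial.C c⁻¹ = 1 := by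
    rw [← MvPolynomial.C_mul, mul_inv_cancel₀ hc, MvPolynomial.C_1]
  have h1 : F.comp G = AlgHom.id ℂ _ := by
    refine MvPolynomial.algHom_ext fun i => ?_
    rw [AlgHom.comp_apply, AlgHom.id_apply]
    fin_cases i
    · show F (G (MvPolynomial.X 0)) = MvPolynomial.X 0
      rw [G0, map_mul, map_sub, FC, FC, F0]
      linear_combination MvPolynomial.X 0 * ea
    · show F (G (MvPolynomial.X 1)) = MvPolynomial.X 1
      rw [G1, F1]
    · show F (G (MvPolynomial.X 2)) = MvPolynomial.X 2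
      rw [G2, map_mul, FC, F2]
      linear_combination MvPolynomial.X 2 * ec
  have h2 : G.comp F = AlgHom.id ℂ _ := by
    refine MvPolynomial.algHom_ext fun i => ?_
    rw [AlgHom.comp_apply, AlgHom.id_apply]
    fin_cases i
    · show G (F (MvPolynomial.X 0)) = MvPolynomial.X 0
      rw [F0, map_add, map_mul, GC, GC, G0]
      linear_combination (MvPolynomial.X 0 - MvPolynomial.C b) * ea
    · show G (F (MvPolynomial.X 1)) = MvPolynomial.X 1
      rw [F1, G1]
    · show G (F (MvPolynomial.X 2)) = MvPolynomial.X 2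
      rw [F2, map_mul, GC, G2]
      linear_combination MvPolynomial.X 2 * ec
  refine ⟨AlgEquiv.ofAlgHom F G h1 h2, ?_⟩
  show F (aeval (MvPolynomial.X 0 : MvPolynomial (Fin 3) ℂ) f * MvPolynomial.X 2
    - MvPolynomial.X 1 ^ k) = _
  rw [map_sub, map_mul, map_pow, F1, F2, ← Polynomial.aeval_algHom_apply, F0, map_mul,
    Polynomial.aeval_comp, map_add, map_mul, Polynomial.aeval_C, Polynomial.aeval_C,
    Polynomial.aeval_C, Polynomial.aeval_X]
  simp only [MvPolynomial.algebraMap_eq]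
  ring

end Pool.Agent.Y810.CS
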